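import Pool.Agent.KDS.StmtsA

set_option autoImplicit false
set_option maxHeartbeats 40000000
set_option maxRecDepth 1000000

/-!
# KDS, row SHE: the duplication polynomials and the shift of the variable
-/

namespace Pool.Agent.KDS.H22

open Polynomial NumberField H58Q Pool.Agent.SZT Pool.Agent.KDT Pool.Agent.KDS

section poly

variable {K : Type} [Field K]

/-- a monic quintic is the sum of its terms -/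
lemma quint_eq (f : K[X]) (hf : f.Monic) (h5 : f.natDegree = 5) :
    f = X ^ 5 + C (f.coeff 4) * X ^ 4 + C (f.coeff 3) * X ^ 3 + C (f.coeff 2) * X ^ 2
      + C (f.coeff 1) * X + C (f.coeff 0) := by
  have hc : f.coeff 5 = 1 := by rw [← h5]; exact hf
  conv_lhs => rw [f.as_sum_range_C_mul_X_pow, h5]
  simp only [Finset.sum_range_succ, Finset.sum_range_zero, hc, pow_zero, pow_one, map_one]
  ring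

lemma comp_eq (a c0 c1 c2 c3 c4 : K) :
    (X ^ 5 + C c4 * X ^ 4 + C c3 * X ^ 3 + C c2 * X ^ 2 + C c1 * X + C c0 : K[X]).comp (X + C a) =
      X ^ 5 + C (c4 + 5 * a) * X ^ 4 + C (c3 + 4 * a * c4 + 10 * a ^ 2) * X ^ 3
        + C (c2 + 3 * a * c3 + 6 * a ^ 2 * c4 + 10 * a ^ 3) * X ^ 2
        + C (c1 + 2 * a * c2 + 3 * a ^ 2 * c3 + 4 * a ^ 3 * c4 + 5 * a ^ 4) * X
        + C (c0 + a * c1 + a ^ 2 * c2 + a ^ 3 * c3 + a ^ 4 * c4 + a ^ 5) := by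
  simp only [add_comp, mul_comp, pow_comp, X_comp, C_comp, map_add, map_mul, map_pow]
  have h5 : (C (5 : K) : K[X]) = 5 := map_ofNat C 5
  have h4 : (C (4 : K) : K[X]) = 4 := map_ofNat C 4
  have h10 : (C (10 : K) : K[X]) = 10 := map_ofNat C 10
  have h3 : (C (3 : K) : K[X]) = 3 := map_ofNat C 3
  have h6 : (C (6 : K) : K[X]) = 6 := map_ofNat C 6
  have h2 : (C (2 : K) : K[X]) = 2 := map_ofNat C 2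
  rw [h5, h4, h10, h3, h6, h2]
  ring

lemma quad_comp (a p0 p1 : K) :
    (X ^ 2 + C p1 * X + C p0 : K[X]).comp (X + C a) =
      X ^ 2 + C (p1 + 2 * a) * X + C (p0 + p1 * a + a ^ 2) := by
  simp only [add_comp, mul_comp, pow_comp, X_comp, C_comp, map_add, map_mul, map_pow]
  have h2 : (C (2 : K) : K[X]) = 2 := map_ofNat C 2
  rw [h2]
  ring

lemma lin_comp (a q0 q1 : K) :
    (C q1 * X + C q0 : K[X]).comp (X + C a) = C q1 * X + C (q0 + q1 * a) := by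
  simp only [add_comp, mul_comp, X_comp, C_comp, map_add, map_mul]
  ring

lemma quad_coeffs (p0 p1 : K) (g : K[X]) (hg : g = X ^ 2 + C p1 * X + C p0) :
    g.coeff 0 = p0 ∧ g.coeff 1 = p1 := by
  subst hg
  refine ⟨?_, ?_⟩ <;> simp [coeff_C, coeff_X_pow]

lemma lin_coeffs (q0 q1 : K) (g : K[X]) (hg : g = C q1 * X + C q0) : g.coeff 1 = q1 := by
  subst hg
  simp [coeff_C]

lemma coeffs (c0 c1 c2 c3 c4 : K) (g : K[X])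
    (hg : g = X ^ 5 + C c4 * X ^ 4 + C c3 * X ^ 3 + C c2 * X ^ 2 + C c1 * X + C c0) :
    g.coeff 0 = c0 ∧ g.coeff 1 = c1 ∧ g.coeff 2 = c2 ∧ g.coeff 3 = c3 ∧ g.coeff 4 = c4 := by
  subst hg
  refine ⟨?_, ?_, ?_, ?_, ?_⟩ <;>
    simp [coeff_X, coeff_C, coeff_X_pow]

lemma coeffs_shift (f : K[X]) (hf : f.Monic) (h5 : f.natDegree = 5) (a : K) :
    (f.comp (X + C a)).coeff 4 = f.coeff 4 + 5 * a ∧
    (f.comp (X + C a)).coeff 3 = f.coeff 3 + 4 * a * f.coeff 4 + 10 * a ^ 2 ∧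
    (f.comp (X + C a)).coeff 2 =
      f.coeff 2 + 3 * a * f.coeff 3 + 6 * a ^ 2 * f.coeff 4 + 10 * a ^ 3 ∧
    (f.comp (X + C a)).coeff 1 =
      f.coeff 1 + 2 * a * f.coeff 2 + 3 * a ^ 2 * f.coeff 3 + 4 * a ^ 3 * f.coeff 4 + 5 * a ^ 4 ∧
    (f.comp (X + C a)).coeff 0 =
      f.coeff 0 + a * f.coeff 1 + a ^ 2 * f.coeff 2 + a ^ 3 * f.coeff 3 + a ^ 4 * f.coeff 4
        + a ^ 5 := by
  have h := quint_eq f hf h5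
  generalize f.coeff 0 = c0 at h ⊢
  generalize f.coeff 1 = c1 at h ⊢
  generalize f.coeff 2 = c2 at h ⊢
  generalize f.coeff 3 = c3 at h ⊢
  generalize f.coeff 4 = c4 at h ⊢
  have h' := comp_eq a c0 c1 c2 c3 c4
  rw [← h] at h'
  obtain ⟨e0, e1, e2, e3, e4⟩ := coeffs _ _ _ _ _ _ h'
  exact ⟨e4, e3, e2, e1, e0⟩

def D0 (c0 c1 c2 c3 c4 u0 u1 u2 u3 : K) : K :=
    8 * (u2) ^ 3 * u3 + 4 * c4 * (u2) ^ 4 - 4 * u1 * u2 * (u3) ^ 2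
      + 4 * c3 * u1 * (u2) ^ 3 + 4 * u0 * (u3) ^ 3
      - 4 * c3 * u0 * (u2) ^ 2 * u3 + 4 * c2 * (u1) ^ 2 * (u2) ^ 2
      - 8 * c2 * u0 * u1 * u2 * u3 - 8 * c1 * u0 * u1 * (u2) ^ 2
      + 4 * c2 * (u0) ^ 2 * (u3) ^ 2 - 8 * c1 * (u0) ^ 2 * u2 * u3
      + 16 * c0 * (u0) ^ 2 * (u2) ^ 2
      - 8 * c4 * c1 * (u0) ^ 2 * (u2) ^ 2 + 4 * c1 * (u1) ^ 3 * u2
      - 4 * c1 * u0 * (u1) ^ 2 * u3 - 16 * c0 * u0 * (u1) ^ 2 * u2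
      - 32 * c0 * (u0) ^ 2 * u1 * u3
      - 4 * c3 * c1 * (u0) ^ 2 * u1 * u2
      - 16 * c4 * c0 * (u0) ^ 2 * u1 * u2
      + 4 * c3 * c1 * (u0) ^ 3 * u3
      - 16 * c4 * c0 * (u0) ^ 3 * u3
      - 16 * c3 * c0 * (u0) ^ 3 * u2 + 4 * c0 * (u1) ^ 4
      - 8 * c3 * c0 * (u0) ^ 2 * (u1) ^ 2 + 8 * (c1) ^ 2 * (u0) ^ 3 * u1
      - 32 * c2 * c0 * (u0) ^ 3 * u1
      + 4 * (c3) ^ 2 * c0 * (u0) ^ 4 + 4 * c4 * (c1) ^ 2 * (u0) ^ 4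
      - 16 * c4 * c2 * c0 * (u0) ^ 4

def D1 (c0 c1 c2 c3 c4 u0 u1 u2 u3 : K) : K :=
    4 * (u2) ^ 2 * (u3) ^ 2 - 4 * c3 * (u2) ^ 4 + 4 * u1 * (u3) ^ 3
      + 8 * c4 * u1 * u2 * (u3) ^ 2 + 12 * c3 * u1 * (u2) ^ 2 * u3
      + 12 * c3 * u0 * u2 * (u3) ^ 2 + 16 * c2 * u0 * (u2) ^ 2 * u3
      + 8 * c4 * c3 * u0 * (u2) ^ 2 * u3 + 16 * c1 * u0 * (u2) ^ 3
      + 4 * (c3) ^ 2 * u0 * (u2) ^ 3 + 8 * c2 * (u1) ^ 2 * u2 * u3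
      + 4 * c1 * (u1) ^ 2 * (u2) ^ 2 + 8 * c2 * u0 * u1 * (u3) ^ 2
      + 16 * c1 * u0 * u1 * u2 * u3
      + 16 * c4 * c2 * u0 * u1 * u2 * u3
      + 32 * c0 * u0 * u1 * (u2) ^ 2
      + 8 * c3 * c2 * u0 * u1 * (u2) ^ 2
      + 16 * c4 * c1 * u0 * u1 * (u2) ^ 2
      + 4 * c1 * (u0) ^ 2 * (u3) ^ 2 - 16 * c0 * (u0) ^ 2 * u2 * u3
      + 8 * c3 * c2 * (u0) ^ 2 * u2 * u3
      + 16 * c4 * c1 * (u0) ^ 2 * u2 * u3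
      + 16 * (c2) ^ 2 * (u0) ^ 2 * (u2) ^ 2
      - 24 * c3 * c1 * (u0) ^ 2 * (u2) ^ 2
      + 16 * (c4) ^ 2 * c1 * (u0) ^ 2 * (u2) ^ 2
      + 4 * c1 * (u1) ^ 3 * u3 + 8 * c0 * (u1) ^ 3 * u2
      + 8 * c0 * u0 * (u1) ^ 2 * u3 + 8 * c4 * c1 * u0 * (u1) ^ 2 * u3
      + 12 * c3 * c1 * u0 * (u1) ^ 2 * u2
      + 32 * c4 * c0 * u0 * (u1) ^ 2 * u2
      + 12 * c3 * c1 * (u0) ^ 2 * u1 * u3
      + 16 * c4 * c0 * (u0) ^ 2 * u1 * u3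
      + 16 * c2 * c1 * (u0) ^ 2 * u1 * u2
      - 40 * c3 * c0 * (u0) ^ 2 * u1 * u2
      + 8 * c4 * c3 * c1 * (u0) ^ 2 * u1 * u2
      + 32 * (c4) ^ 2 * c0 * (u0) ^ 2 * u1 * u2
      + 24 * c3 * c0 * (u0) ^ 3 * u3 + 16 * (c1) ^ 2 * (u0) ^ 3 * u2
      - 32 * c2 * c0 * (u0) ^ 3 * u2
      + 4 * (c3) ^ 2 * c1 * (u0) ^ 3 * u2
      + 16 * c4 * c3 * c0 * (u0) ^ 3 * u2
      + 16 * c3 * c0 * u0 * (u1) ^ 3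
      + 4 * (c1) ^ 2 * (u0) ^ 2 * (u1) ^ 2
      + 16 * c4 * c3 * c0 * (u0) ^ 2 * (u1) ^ 2
      + 16 * c1 * c0 * (u0) ^ 3 * u1
      + 16 * (c3) ^ 2 * c0 * (u0) ^ 3 * u1 + 16 * (c0) ^ 2 * (u0) ^ 4
      - 4 * c3 * (c1) ^ 2 * (u0) ^ 4
      + 16 * c3 * c2 * c0 * (u0) ^ 4

def D2 (c0 c1 c2 c3 c4 u0 u1 u2 u3 : K) : K :=
    4 * u2 * (u3) ^ 3 + 4 * c4 * (u2) ^ 2 * (u3) ^ 2 + 4 * c3 * (u2) ^ 3 * u3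
      + 4 * c2 * (u2) ^ 4 + 8 * c1 * u1 * (u2) ^ 3
      - 8 * c1 * u0 * (u2) ^ 2 * u3 - 16 * c0 * u0 * (u2) ^ 3
      - 4 * c1 * (u1) ^ 2 * u2 * u3 + 12 * c0 * (u1) ^ 2 * (u2) ^ 2
      - 4 * c1 * u0 * u1 * (u3) ^ 2 - 24 * c0 * u0 * u1 * u2 * u3
      - 8 * c4 * c1 * u0 * u1 * u2 * u3
      - 4 * c3 * c1 * u0 * u1 * (u2) ^ 2
      - 16 * c4 * c0 * u0 * u1 * (u2) ^ 2
      - 12 * c0 * (u0) ^ 2 * (u3) ^ 2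
      - 4 * c3 * c1 * (u0) ^ 2 * u2 * u3
      - 16 * c4 * c0 * (u0) ^ 2 * u2 * u3
      - 8 * c2 * c1 * (u0) ^ 2 * (u2) ^ 2
      + 24 * c3 * c0 * (u0) ^ 2 * (u2) ^ 2
      - 16 * (c4) ^ 2 * c0 * (u0) ^ 2 * (u2) ^ 2
      - 8 * c0 * (u1) ^ 3 * u3 - 16 * c4 * c0 * u0 * (u1) ^ 2 * u3
      - 24 * c3 * c0 * u0 * (u1) ^ 2 * u2
      - 24 * c3 * c0 * (u0) ^ 2 * u1 * u3
      - 8 * (c1) ^ 2 * (u0) ^ 2 * u1 * u2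
      - 16 * c4 * c3 * c0 * (u0) ^ 2 * u1 * u2
      + 8 * (c1) ^ 2 * (u0) ^ 3 * u3 - 32 * c2 * c0 * (u0) ^ 3 * u3
      - 16 * c1 * c0 * (u0) ^ 3 * u2
      - 8 * (c3) ^ 2 * c0 * (u0) ^ 3 * u2 + 4 * (c1) ^ 2 * u0 * (u1) ^ 3
      - 16 * c2 * c0 * u0 * (u1) ^ 3
      - 8 * c1 * c0 * (u0) ^ 2 * (u1) ^ 2
      + 4 * c4 * (c1) ^ 2 * (u0) ^ 2 * (u1) ^ 2
      - 16 * c4 * c2 * c0 * (u0) ^ 2 * (u1) ^ 2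
      - 32 * (c0) ^ 2 * (u0) ^ 3 * u1
      + 4 * c3 * (c1) ^ 2 * (u0) ^ 3 * u1
      - 16 * c3 * c2 * c0 * (u0) ^ 3 * u1
      + 4 * c2 * (c1) ^ 2 * (u0) ^ 4
      - 16 * (c2) ^ 2 * c0 * (u0) ^ 4
      + 8 * c3 * c1 * c0 * (u0) ^ 4
      - 16 * c4 * (c0) ^ 2 * (u0) ^ 4

def D3 (c0 c1 c2 c3 c4 u0 u1 u2 u3 : K) : K :=
    (u3) ^ 4 - 2 * c3 * (u2) ^ 2 * (u3) ^ 2 - 8 * c2 * (u2) ^ 3 * u3
      - 2 * c1 * (u2) ^ 4 + (c3) ^ 2 * (u2) ^ 4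
      - 4 * c4 * c2 * (u2) ^ 4 - 12 * c1 * u1 * (u2) ^ 2 * u3
      - 8 * c0 * u1 * (u2) ^ 3 - 8 * c4 * c1 * u1 * (u2) ^ 3
      - 8 * c0 * u0 * (u2) ^ 2 * u3 - 4 * c3 * c1 * u0 * (u2) ^ 3
      - 16 * c0 * (u1) ^ 2 * u2 * u3
      - 2 * c3 * c1 * (u1) ^ 2 * (u2) ^ 2
      - 16 * c4 * c0 * (u1) ^ 2 * (u2) ^ 2
      + 8 * c0 * u0 * u1 * (u3) ^ 2 + 4 * c3 * c1 * u0 * u1 * u2 * u3
      - 8 * c3 * c0 * u0 * u1 * (u2) ^ 2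
      - 2 * c3 * c1 * (u0) ^ 2 * (u3) ^ 2
      + 8 * c4 * c0 * (u0) ^ 2 * (u3) ^ 2
      + 16 * c3 * c0 * (u0) ^ 2 * u2 * u3
      + 12 * (c1) ^ 2 * (u0) ^ 2 * (u2) ^ 2
      - 32 * c2 * c0 * (u0) ^ 2 * (u2) ^ 2
      + 8 * c4 * c3 * c0 * (u0) ^ 2 * (u2) ^ 2
      - 8 * c3 * c0 * (u1) ^ 3 * u2
      + 8 * c3 * c0 * u0 * (u1) ^ 2 * u3
      - 12 * (c1) ^ 2 * (u0) ^ 2 * u1 * u3
      + 48 * c2 * c0 * (u0) ^ 2 * u1 * u3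
      + 16 * c1 * c0 * (u0) ^ 2 * u1 * u2
      + 8 * (c3) ^ 2 * c0 * (u0) ^ 2 * u1 * u2
      - 8 * (c3) ^ 2 * c0 * (u0) ^ 3 * u3
      - 8 * c4 * (c1) ^ 2 * (u0) ^ 3 * u3
      + 32 * c4 * c2 * c0 * (u0) ^ 3 * u3
      + 32 * (c0) ^ 2 * (u0) ^ 3 * u2
      - 4 * c3 * (c1) ^ 2 * (u0) ^ 3 * u2
      + 16 * c3 * c2 * c0 * (u0) ^ 3 * u2 + (c1) ^ 2 * (u1) ^ 4
      - 4 * c2 * c0 * (u1) ^ 4 + 16 * (c0) ^ 2 * (u0) ^ 2 * (u1) ^ 2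
      - 2 * c3 * (c1) ^ 2 * (u0) ^ 2 * (u1) ^ 2
      + 8 * c3 * c2 * c0 * (u0) ^ 2 * (u1) ^ 2
      - 8 * c2 * (c1) ^ 2 * (u0) ^ 3 * u1
      + 32 * (c2) ^ 2 * c0 * (u0) ^ 3 * u1
      - 16 * c3 * c1 * c0 * (u0) ^ 3 * u1
      + 32 * c4 * (c0) ^ 2 * (u0) ^ 3 * u1 - 2 * (c1) ^ 3 * (u0) ^ 4
      + 8 * c2 * c1 * c0 * (u0) ^ 4
      - 16 * c3 * (c0) ^ 2 * (u0) ^ 4
      + (c3) ^ 2 * (c1) ^ 2 * (u0) ^ 4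
      - 4 * (c3) ^ 2 * c2 * c0 * (u0) ^ 4
      - 4 * c4 * c2 * (c1) ^ 2 * (u0) ^ 4
      + 16 * c4 * (c2) ^ 2 * c0 * (u0) ^ 4
      - 8 * c4 * c3 * c1 * c0 * (u0) ^ 4
      + 16 * (c4) ^ 2 * (c0) ^ 2 * (u0) ^ 4

def Qv (c0 c1 c2 c3 c4 u0 u1 u2 u3 : K) : K :=
    ((u1) ^ 2 - 4 * u0 * u2) * (u3) ^ 2
    - 2 * (2 * (u0) ^ 3 * c0 + (u0) ^ 2 * u1 * c1
        + 2 * (u0) ^ 2 * u2 * c2 + u0 * u1 * u2 * c3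
        + 2 * u0 * (u2) ^ 2 * c4 + u1 * (u2) ^ 2) * u3
    + (-4 * (u0) ^ 4 * c0 * c2 + (u0) ^ 4 * (c1) ^ 2
        - 4 * (u0) ^ 3 * u1 * c0 * c3
        - 2 * (u0) ^ 3 * u2 * c1 * c3
        - 4 * (u0) ^ 2 * (u1) ^ 2 * c0 * c4
        + 4 * (u0) ^ 2 * u1 * u2 * c0
        - 4 * (u0) ^ 2 * u1 * u2 * c1 * c4
        + 2 * (u0) ^ 2 * (u2) ^ 2 * c1
        - 4 * (u0) ^ 2 * (u2) ^ 2 * c2 * c4
        + (u0) ^ 2 * (u2) ^ 2 * (c3) ^ 2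
        - 4 * u0 * (u1) ^ 3 * c0
        - 4 * u0 * (u1) ^ 2 * u2 * c1
        - 4 * u0 * u1 * (u2) ^ 2 * c2
        - 2 * u0 * (u2) ^ 3 * c3 + (u2) ^ 4)

lemma quart_shift (c0 c1 c2 c3 c4 a u0 u1 u2 u3 : K) (g4 g3 g2 g1 g0 v1 v2 v3 : K)
    (h4 : g4 = c4 + 5 * a) (h3 : g3 = c3 + 4 * a * c4 + 10 * a ^ 2)
    (h2 : g2 = c2 + 3 * a * c3 + 6 * a ^ 2 * c4 + 10 * a ^ 3)
    (h1 : g1 = c1 + 2 * a * c2 + 3 * a ^ 2 * c3 + 4 * a ^ 3 * c4 + 5 * a ^ 4)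
    (h0 : g0 = c0 + a * c1 + a ^ 2 * c2 + a ^ 3 * c3 + a ^ 4 * c4 + a ^ 5)
    (w1 : v1 = u1 + -2 * a * u0) (w2 : v2 = u2 + -a * u1 + a ^ 2 * u0)
    (w3 : v3 = u3 + -2 * a * u2 + a ^ 2 * u1 + -(4 * a ^ 3 + 2 * c4 * a ^ 2 + c3 * a) * u0) :
    Qv g0 g1 g2 g3 g4 u0 v1 v2 v3 = Qv c0 c1 c2 c3 c4 u0 u1 u2 u3 := by
  subst h4 h3 h2 h1 h0 w1 w2 w3
  simp only [Qv]
  ring

lemma dup0_shift (c0 c1 c2 c3 c4 a u0 u1 u2 u3 : K) (g4 g3 g2 g1 g0 v1 v2 v3 : K)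
    (h4 : g4 = c4 + 5 * a) (h3 : g3 = c3 + 4 * a * c4 + 10 * a ^ 2)
    (h2 : g2 = c2 + 3 * a * c3 + 6 * a ^ 2 * c4 + 10 * a ^ 3)
    (h1 : g1 = c1 + 2 * a * c2 + 3 * a ^ 2 * c3 + 4 * a ^ 3 * c4 + 5 * a ^ 4)
    (h0 : g0 = c0 + a * c1 + a ^ 2 * c2 + a ^ 3 * c3 + a ^ 4 * c4 + a ^ 5)
    (w1 : v1 = u1 + -2 * a * u0) (w2 : v2 = u2 + -a * u1 + a ^ 2 * u0)
    (w3 : v3 = u3 + -2 * a * u2 + a ^ 2 * u1 + -(4 * a ^ 3 + 2 * c4 * a ^ 2 + c3 * a) * u0) :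
    D0 g0 g1 g2 g3 g4 u0 v1 v2 v3 =
    D0 c0 c1 c2 c3 c4 u0 u1 u2 u3 + 4 * a * Qv c0 c1 c2 c3 c4 u0 u1 u2 u3 := by
  subst h4 h3 h2 h1 h0 w1 w2 w3
  simp only [D0, Qv]
  ring

lemma dup1_shift (c0 c1 c2 c3 c4 a u0 u1 u2 u3 : K) (g4 g3 g2 g1 g0 v1 v2 v3 : K)
    (h4 : g4 = c4 + 5 * a) (h3 : g3 = c3 + 4 * a * c4 + 10 * a ^ 2)
    (h2 : g2 = c2 + 3 * a * c3 + 6 * a ^ 2 * c4 + 10 * a ^ 3)
    (h1 : g1 = c1 + 2 * a * c2 + 3 * a ^ 2 * c3 + 4 * a ^ 3 * c4 + 5 * a ^ 4)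
    (h0 : g0 = c0 + a * c1 + a ^ 2 * c2 + a ^ 3 * c3 + a ^ 4 * c4 + a ^ 5)
    (w1 : v1 = u1 + -2 * a * u0) (w2 : v2 = u2 + -a * u1 + a ^ 2 * u0)
    (w3 : v3 = u3 + -2 * a * u2 + a ^ 2 * u1 + -(4 * a ^ 3 + 2 * c4 * a ^ 2 + c3 * a) * u0) :
    D1 g0 g1 g2 g3 g4 u0 v1 v2 v3 =
    D1 c0 c1 c2 c3 c4 u0 u1 u2 u3 + -2 * a * D0 c0 c1 c2 c3 c4 u0 u1 u2 u3 - (8 * c4 * a + 24 * a ^ 2) * Qv c0 c1 c2 c3 c4 u0 u1 u2 u3 := by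
  subst h4 h3 h2 h1 h0 w1 w2 w3
  simp only [D0, D1, Qv]
  ring

lemma dup2_shift (c0 c1 c2 c3 c4 a u0 u1 u2 u3 : K) (g4 g3 g2 g1 g0 v1 v2 v3 : K)
    (h4 : g4 = c4 + 5 * a) (h3 : g3 = c3 + 4 * a * c4 + 10 * a ^ 2)
    (h2 : g2 = c2 + 3 * a * c3 + 6 * a ^ 2 * c4 + 10 * a ^ 3)
    (h1 : g1 = c1 + 2 * a * c2 + 3 * a ^ 2 * c3 + 4 * a ^ 3 * c4 + 5 * a ^ 4)
    (h0 : g0 = c0 + a * c1 + a ^ 2 * c2 + a ^ 3 * c3 + a ^ 4 * c4 + a ^ 5)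
    (w1 : v1 = u1 + -2 * a * u0) (w2 : v2 = u2 + -a * u1 + a ^ 2 * u0)
    (w3 : v3 = u3 + -2 * a * u2 + a ^ 2 * u1 + -(4 * a ^ 3 + 2 * c4 * a ^ 2 + c3 * a) * u0) :
    D2 g0 g1 g2 g3 g4 u0 v1 v2 v3 =
    D2 c0 c1 c2 c3 c4 u0 u1 u2 u3 + -a * D1 c0 c1 c2 c3 c4 u0 u1 u2 u3 + a ^ 2 * D0 c0 c1 c2 c3 c4 u0 u1 u2 u3 + (4 * c4 * a ^ 2 + 8 * a ^ 3) * Qv c0 c1 c2 c3 c4 u0 u1 u2 u3 := by
  subst h4 h3 h2 h1 h0 w1 w2 w3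
  simp only [D0, D1, D2, Qv]
  ring

lemma dup3_shift (c0 c1 c2 c3 c4 a u0 u1 u2 u3 : K) (g4 g3 g2 g1 g0 v1 v2 v3 : K)
    (h4 : g4 = c4 + 5 * a) (h3 : g3 = c3 + 4 * a * c4 + 10 * a ^ 2)
    (h2 : g2 = c2 + 3 * a * c3 + 6 * a ^ 2 * c4 + 10 * a ^ 3)
    (h1 : g1 = c1 + 2 * a * c2 + 3 * a ^ 2 * c3 + 4 * a ^ 3 * c4 + 5 * a ^ 4)
    (h0 : g0 = c0 + a * c1 + a ^ 2 * c2 + a ^ 3 * c3 + a ^ 4 * c4 + a ^ 5)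
    (w1 : v1 = u1 + -2 * a * u0) (w2 : v2 = u2 + -a * u1 + a ^ 2 * u0)
    (w3 : v3 = u3 + -2 * a * u2 + a ^ 2 * u1 + -(4 * a ^ 3 + 2 * c4 * a ^ 2 + c3 * a) * u0) :
    D3 g0 g1 g2 g3 g4 u0 v1 v2 v3 =
    D3 c0 c1 c2 c3 c4 u0 u1 u2 u3 + -2 * a * D2 c0 c1 c2 c3 c4 u0 u1 u2 u3 + a ^ 2 * D1 c0 c1 c2 c3 c4 u0 u1 u2 u3 + -(4 * a ^ 3 + 2 * c4 * a ^ 2 + c3 * a) * D0 c0 c1 c2 c3 c4 u0 u1 u2 u3
      - (2 * c3 * a ^ 2 + 8 * c4 * a ^ 3 + 14 * a ^ 4) * Qv c0 c1 c2 c3 c4 u0 u1 u2 u3 := by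
  subst h4 h3 h2 h1 h0 w1 w2 w3
  simp only [D0, D1, D2, D3, Qv]
  ring

end poly

/-- row SHE -/
theorem she : SheStatement := by
  intro K _ f a hf h5
  obtain ⟨e4, e3, e2, e1, e0⟩ := coeffs_shift f hf h5 a
  have hm : (f.comp (X + C a)).Monic := hf.comp_X_add_C a
  have hd : (f.comp (X + C a)).natDegree = 5 := by
    rw [natDegree_comp, natDegree_X_add_C, mul_one, h5]
  have hQ : ∀ u : Fin 4 → K, quart (f.comp (X + C a)) (uni (shc f a) u) = quart f u := fun u =>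
    quart_shift (f.coeff 0) (f.coeff 1) (f.coeff 2) (f.coeff 3) (f.coeff 4) a (u 0) (u 1) (u 2)
      (u 3) _ _ _ _ _ _ _ _ e4 e3 e2 e1 e0 rfl rfl rfl
  refine ⟨hm, hd, ?_, hQ, ?_⟩
  · intro A B hA hA2 hB
    have hAe : A = X ^ 2 + C (A.coeff 1) * X + C (A.coeff 0) := by
      have hc : A.coeff 2 = 1 := by rw [← hA2]; exact hA
      conv_lhs => rw [A.as_sum_range_C_mul_X_pow, hA2]
      simp only [Finset.sum_range_succ, Finset.sum_range_zero, hc, pow_zero, pow_one, map_one]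
      ring
    have hBe : B = C (B.coeff 1) * X + C (B.coeff 0) := by
      have hB1 : B.degree ≤ 1 := by
        have h2 : A.degree = 2 := by
          rw [degree_eq_natDegree hA.ne_zero, hA2]; rfl
        rw [h2] at hB
        have hBn : B.natDegree < 2 ∨ B = 0 := by
          by_cases h0 : B = 0
          · exact Or.inr h0
          · left
            exact (natDegree_lt_iff_degree_lt h0).2 hB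
        rcases hBn with h | h
        · have h1 : B.natDegree ≤ 1 := by omega
          exact degree_le_of_natDegree_le h1
        · rw [h]; simp
      exact eq_X_add_C_of_degree_le_one hB1
    have hA' : A.comp (X + C a) = X ^ 2 + C (A.coeff 1 + 2 * a) * X
        + C (A.coeff 0 + A.coeff 1 * a + a ^ 2) := by
      rw [← quad_comp, ← hAe]
    have hB' : B.comp (X + C a) = C (B.coeff 1) * X + C (B.coeff 0 + B.coeff 1 * a) := by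
      rw [← lin_comp, ← hBe]
    obtain ⟨a0, a1⟩ := quad_coeffs _ _ _ hA'
    have b1 : (B.comp (X + C a)).coeff 1 = B.coeff 1 := lin_coeffs _ _ _ hB'
    funext j
    fin_cases j
    · rfl
    · change -(A.comp (X + C a)).coeff 1 = -A.coeff 1 + -2 * a * 1
      rw [a1]; ring
    · change (A.comp (X + C a)).coeff 0 = A.coeff 0 + -a * (-A.coeff 1) + a ^ 2 * 1
      rw [a0]; ring
    · change ((B.comp (X + C a)).coeff 1) ^ 2 - (-(A.comp (X + C a)).coeff 1) ^ 3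
        + (-(A.comp (X + C a)).coeff 1) * (A.comp (X + C a)).coeff 0
        - (f.comp (X + C a)).coeff 4 * (-(A.comp (X + C a)).coeff 1) ^ 2
        - (f.comp (X + C a)).coeff 3 * (-(A.comp (X + C a)).coeff 1)
        - (f.comp (X + C a)).coeff 2
        = ((B.coeff 1) ^ 2 - (-A.coeff 1) ^ 3 + (-A.coeff 1) * A.coeff 0
            - f.coeff 4 * (-A.coeff 1) ^ 2 - f.coeff 3 * (-A.coeff 1) - f.coeff 2)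
          + -2 * a * A.coeff 0 + a ^ 2 * (-A.coeff 1)
          + -(4 * a ^ 3 + 2 * f.coeff 4 * a ^ 2 + f.coeff 3 * a) * 1
      rw [a1, a0, b1, e4, e3, e2]
      ring
  · intro u hu
    have hu' : Qv (f.coeff 0) (f.coeff 1) (f.coeff 2) (f.coeff 3) (f.coeff 4) (u 0) (u 1) (u 2)
      (u 3) = 0 := hu
    funext j
    fin_cases j
    · have h := dup0_shift (f.coeff 0) (f.coeff 1) (f.coeff 2) (f.coeff 3) (f.coeff 4) a (u 0)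
        (u 1) (u 2) (u 3) _ _ _ _ _ _ _ _ e4 e3 e2 e1 e0 rfl rfl rfl
      rw [hu', mul_zero, add_zero] at h
      exact h
    · have h := dup1_shift (f.coeff 0) (f.coeff 1) (f.coeff 2) (f.coeff 3) (f.coeff 4) a (u 0)
        (u 1) (u 2) (u 3) _ _ _ _ _ _ _ _ e4 e3 e2 e1 e0 rfl rfl rfl
      rw [hu', mul_zero, sub_zero] at h
      exact h
    · have h := dup2_shift (f.coeff 0) (f.coeff 1) (f.coeff 2) (f.coeff 3) (f.coeff 4) a (u 0)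
        (u 1) (u 2) (u 3) _ _ _ _ _ _ _ _ e4 e3 e2 e1 e0 rfl rfl rfl
      rw [hu', mul_zero, add_zero] at h
      exact h
    · have h := dup3_shift (f.coeff 0) (f.coeff 1) (f.coeff 2) (f.coeff 3) (f.coeff 4) a (u 0)
        (u 1) (u 2) (u 3) _ _ _ _ _ _ _ _ e4 e3 e2 e1 e0 rfl rfl rfl
      rw [hu', mul_zero, sub_zero] at h
      exact h

end Pool.Agent.KDS.H22
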